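import Pool.Agent.H608L.PartA

/-!
# Strongly Lusin sets from `cof(meager) = ℵ₁`
-/

set_option autoImplicit false

namespace H608L

open Set Topology

/-- the Kuratowski-Ulam theorem, for the sections in the second factor -/
lemma kurUlam {A B : Type} [TopologicalSpace A] [TopologicalSpace B] [SecondCountableTopology A]
    (M : Set (A × B)) (hM : IsMeagre M) : IsMeagre {y : B | ¬ IsMeagre {z : A | (z, y) ∈ M}} := by
  classical
  obtain ⟨S, hS1, hS2, hS3⟩ := isMeagre_iff_countable_union_isNowhereDense.1 hM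
  have hB := TopologicalSpace.isBasis_countableBasis A
  have hBc : Countable (TopologicalSpace.countableBasis A) :=
    (TopologicalSpace.countable_countableBasis A).to_subtype
  have hSc : Countable S := hS2
  let E : S → TopologicalSpace.countableBasis A → Set B := fun N b =>
    {y | ∀ z ∈ (b : Set A), (z, y) ∈ closure (N : Set (A × B))}
  have hE : ∀ N b, IsNowhereDense (E N b) := by
    intro N b
    have hcl : IsClosed (E N b) := by
      have : E N b = ⋂ z ∈ (b : Set A), {y | (z, y) ∈ closure (N : Set (A × B))} := by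
        ext y; simp [E]
      rw [this]
      apply isClosed_biInter
      intro z _
      exact isClosed_closure.preimage (by fun_prop)
    rw [IsNowhereDense, hcl.closure_eq, ← not_nonempty_iff_eq_empty]
    rintro ⟨y, hy⟩
    obtain ⟨z, hz⟩ := TopologicalSpace.nonempty_of_mem_countableBasis b.2
    have hsub : (b : Set A) ×ˢ interior (E N b) ⊆ closure (N : Set (A × B)) := by
      rintro ⟨z', y'⟩ ⟨hz', hy'⟩
      exact interior_subset hy' z' hz'
    have h2 := interior_maximal hsub ((hB.isOpen b.2).prod isOpen_interior)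
    have h3 : interior (closure (N : Set (A × B))) = ∅ := hS1 N N.2
    rw [h3] at h2
    exact h2 (mk_mem_prod hz hy)
  have hU : IsMeagre (⋃ (N : S) (b : TopologicalSpace.countableBasis A), E N b) :=
    isMeagre_iUnion fun N => isMeagre_iUnion fun b => (hE N b).isMeagre
  refine hU.mono ?_
  intro y hy
  by_contra hcon
  apply hy
  have h1 : ∀ N : S, IsMeagre {z : A | (z, y) ∈ closure (N : Set (A × B))} := by
    intro N
    apply IsNowhereDense.isMeagre
    have hcl : IsClosed {z : A | (z, y) ∈ closure (N : Set (A × B))} :=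
      isClosed_closure.preimage (by fun_prop)
    rw [IsNowhereDense, hcl.closure_eq, ← not_nonempty_iff_eq_empty]
    rintro ⟨z, hz⟩
    obtain ⟨b, hb1, hb2, hb3⟩ := hB.exists_subset_of_mem_open hz isOpen_interior
    apply hcon
    refine mem_iUnion₂.2 ⟨N, ⟨b, hb1⟩, ?_⟩
    intro w hw
    have h4 : w ∈ {z : A | (z, y) ∈ closure (N : Set (A × B))} := interior_subset (hb3 hw)
    exact h4
  refine (isMeagre_iUnion h1).mono ?_
  intro z hz
  obtain ⟨N, hN, hzN⟩ := hS3 hz
  exact mem_iUnion.2 ⟨⟨N, hN⟩, subset_closure hzN⟩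

/-- recursion along a well-order -/
lemma exists_rec {I K : Type} [LinearOrder I] [WellFoundedLT I]
    (P : (a : I) → (Iio a → K) → K → Prop) (h : ∀ a g, ∃ z, P a g z) :
    ∃ x : I → K, ∀ a, P a (fun b => x b) (x a) := by
  choose F hF using h
  let x : I → K := WellFounded.fix (wellFounded_lt (α := I))
    (fun a rec => F a (fun b => rec b.1 b.2))
  refine ⟨x, fun a => ?_⟩
  have h1 : x a = F a (fun b => x b) := WellFounded.fix_eq _ _ _
  rw [h1]
  exact hF _ _

/-- the homeomorphism that inserts a coordinate -/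
def insHomeo (K : Type) [TopologicalSpace K] (n : ℕ) (i : Fin (n + 1)) :
    K × (Fin n → K) ≃ₜ (Fin (n + 1) → K) where
  toFun p := i.insertNth (α := fun _ => K) p.1 p.2
  invFun f := (f i, fun j => f (i.succAbove j))
  left_inv p := by
    ext j
    · simp
    · simp
  right_inv f := by
    ext j
    rcases Fin.eq_self_or_eq_succAbove i j with h | ⟨k, h⟩
    · subst h; simp
    · subst h; simp
  continuous_toFun := Continuous.finInsertNth i continuous_fst continuous_snd
  continuous_invFun := by fun_prop

/-- Kuratowski-Ulam in the powers -/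
lemma kurUlamFin {K : Type} [TopologicalSpace K] [SecondCountableTopology K] (n : ℕ)
    (i : Fin (n + 1)) (M : Set (Fin (n + 1) → K)) (hM : IsMeagre M) :
    IsMeagre {y : Fin n → K | ¬ IsMeagre {z : K | i.insertNth (α := fun _ => K) z y ∈ M}} := by
  have h1 : IsMeagre ((insHomeo K n i) ⁻¹' M) :=
    hM.preimage_of_isOpenMap (insHomeo K n i).continuous (insHomeo K n i).isOpenMap
  exact kurUlam _ h1

/-- The sequence of mutually generic points. -/
lemma exists_seq {K I : Type} [TopologicalSpace K] [SecondCountableTopology K] [BaireSpace K]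
    [Nonempty K] [LinearOrder I] [WellFoundedLT I] [Nonempty I] (hI : ∀ a : I, (Iio a).Countable)
    (B : (n : ℕ) → I → Set (Fin (n + 1) → K)) (hB1 : ∀ n a, IsMeagre (B n a))
    (hB2 : ∀ n (M : Set (Fin (n + 1) → K)), IsMeagre M → ∃ a, M ⊆ B n a)
    (Z : Set K) (hZ : ¬ IsMeagre Z) :
    ∃ x : I → K, (∀ a, x a ∈ Z) ∧ ∀ (n : ℕ) (M : Set (Fin n → K)), IsMeagre M → ∃ c : I, ∀ f : Fin n → I,
      Function.Injective f → (∀ i, c < f i) → (fun i => x (f i)) ∉ M := by
  classical
  obtain ⟨x, hx⟩ := exists_rec (I := I) (K := K) (fun a g z =>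
    z ∈ Z ∧ ∀ (n : ℕ) (b : Iio a) (i : Fin (n + 1)) (s : Fin n → Iio a),
      IsMeagre {z : K | i.insertNth (α := fun _ => K) z (fun j => g (s j)) ∈ B n b} →
      i.insertNth (α := fun _ => K) z (fun j => g (s j)) ∉ B n b) (by
    intro a g
    have : Countable (Iio a) := hI a
    let T : (n : ℕ) → Iio a → Fin (n + 1) → (Fin n → Iio a) → Set K := fun n b i s =>
      if IsMeagre {z : K | i.insertNth (α := fun _ => K) z (fun j => g (s j)) ∈ B n b} then
        {z : K | i.insertNth (α := fun _ => K) z (fun j => g (s j)) ∈ B n b} else ∅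
    have hT : ∀ n b i s, IsMeagre (T n b i s) := by
      intro n b i s
      by_cases h : IsMeagre {z : K | i.insertNth (α := fun _ => K) z (fun j => g (s j)) ∈ B n b}
      · simp only [T, if_pos h]; exact h
      · simp only [T, if_neg h]; exact IsMeagre.empty
    have hTU : IsMeagre (⋃ (n : ℕ) (b : Iio a) (i : Fin (n + 1)) (s : Fin n → Iio a), T n b i s) :=
      isMeagre_iUnion fun n => isMeagre_iUnion fun b => isMeagre_iUnion fun i =>
        isMeagre_iUnion fun s => hT n b i s
    have hne : ∃ z ∈ Z, z ∉ ⋃ (n : ℕ) (b : Iio a) (i : Fin (n + 1)) (s : Fin n → Iio a),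
        T n b i s := by
      by_contra hcon
      push Not at hcon
      exact hZ (hTU.mono hcon)
    obtain ⟨z, hzZ, hz⟩ := hne
    refine ⟨z, hzZ, fun n b i s hm hzB => hz ?_⟩
    refine mem_iUnion.2 ⟨n, mem_iUnion.2 ⟨b, mem_iUnion.2 ⟨i, mem_iUnion.2 ⟨s, ?_⟩⟩⟩⟩
    simp only [T, if_pos hm]
    exact hzB)
  refine ⟨x, fun a => (hx a).1, fun n => ?_⟩
  induction n with
  | zero =>
    intro M hM
    obtain ⟨c⟩ := (inferInstance : Nonempty I)
    refine ⟨c, fun f _ _ hfM => ?_⟩
    have h1 : M = univ := by
      apply eq_univ_of_forall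
      intro g
      rwa [Subsingleton.elim g (fun i => x (f i))]
    rw [h1] at hM
    have : BaireSpace (Fin 0 → K) := inferInstance
    exact not_isMeagre_of_isOpen isOpen_univ univ_nonempty hM
  | succ n ih =>
    intro M hM
    obtain ⟨a, ha⟩ := hB2 n M hM
    have h1 : ∀ i : Fin (n + 1), ∃ c : I, ∀ f : Fin n → I, Function.Injective f →
        (∀ j, c < f j) → (fun j => x (f j)) ∉
          {y : Fin n → K | ¬ IsMeagre {z : K | i.insertNth (α := fun _ => K) z y ∈ B n a}} :=
      fun i => ih _ (kurUlamFin n i _ (hB1 n a))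
    choose c hc using h1
    obtain ⟨d, hd⟩ := ((finite_range c).insert a).bddAbove
    have hda : a ≤ d := hd (mem_insert _ _)
    have hdc : ∀ i, c i ≤ d := fun i => hd (mem_insert_of_mem _ ⟨i, rfl⟩)
    refine ⟨d, fun f hf hfd hfM => ?_⟩
    obtain ⟨i, hi⟩ := Finite.exists_max f
    have hlt : ∀ j : Fin n, f (i.succAbove j) < f i := by
      intro j
      refine lt_of_le_of_ne (hi _) ?_
      intro h
      exact Fin.succAbove_ne i j (hf h)
    have h2 := hc i (fun j => f (i.succAbove j))
      (fun j k h => Fin.succAbove_right_injective (hf h))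
      (fun j => (hdc i).trans_lt (hfd _))
    rw [mem_ofPred_eq, not_not] at h2
    have h3 := (hx (f i)).2 n ⟨a, hda.trans_lt (hfd i)⟩ i (fun j => ⟨f (i.succAbove j), hlt j⟩) h2
    apply h3
    have h4 : i.insertNth (α := fun _ => K) (x (f i)) (fun j => x (f (i.succAbove j))) =
        fun k => x (f k) := by
      ext k
      rcases Fin.eq_self_or_eq_succAbove i k with h | ⟨l, h⟩
      · subst h; simp
      · subst h; simp
    rw [h4]
    exact ha hfM

end H608L
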