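import Pool.Agent.H608L.CofA

/-!
# Strongly Lusin sets in the Cantor space
-/

set_option autoImplicit false

namespace H608L

open Set Topology

/-- `cof(meager) ≤ ℵ₁`: there are at most `ℵ₁` many meager subsets of the Cantor space such that every
meager subset of the Cantor space is contained in one of them. -/
def CofMeagerLe : Prop :=
  ∃ B : Set (Set (ℕ → Bool)), Cardinal.mk B ≤ Cardinal.aleph 1 ∧ (∀ b ∈ B, IsMeagre b) ∧
    ∀ M : Set (ℕ → Bool), IsMeagre M → ∃ b ∈ B, M ⊆ b

/-- the finite powers of the Cantor space are homeomorphic to it -/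
def powHomeo (n : ℕ) (e : ℕ ≃ Fin (n + 1) × ℕ) : (Fin (n + 1) → ℕ → Bool) ≃ₜ (ℕ → Bool) where
  toFun f k := f (e k).1 (e k).2
  invFun g i k := g (e.symm (i, k))
  left_inv f := by ext i k; simp
  right_inv g := by ext k; simp
  continuous_toFun := by fun_prop
  continuous_invFun := by fun_prop

lemma exists_lusin_of_seq {I : Type} [LinearOrder I] [Uncountable I]
    (hI : ∀ a : I, (Iic a).Countable) (x : I → ℕ → Bool)
    (hx : ∀ (n : ℕ) (M : Set (Fin n → ℕ → Bool)), IsMeagre M → ∃ c : I, ∀ f : Fin n → I,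
      Function.Injective f → (∀ i, c < f i) → (fun i => x (f i)) ∉ M) :
    IsLusinSet ↥(range x) ∧ StronglyLusin ↥(range x) := by
  classical
  have hSL : StronglyLusin ↥(range x) := by
    intro n M hM
    have hind : IsInducing (fun f : Fin n → ↥(range x) => fun i => (f i : ℕ → Bool)) := by
      refine ⟨?_⟩
      refine le_antisymm ?_ ?_
      · rw [← continuous_iff_le_induced]
        fun_prop
      · simp only [Pi.topologicalSpace]
        rw [induced_iInf]
        refine le_iInf fun i => ?_
        refine iInf_le_of_le i ?_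
        rw [induced_compose]
        have : (instTopologicalSpaceSubtype : TopologicalSpace ↥(range x)) =
            TopologicalSpace.induced Subtype.val inferInstance := rfl
        rw [this, induced_compose]
        exact le_of_eq rfl
    obtain ⟨c, hc⟩ := hx n _ (hind.isMeagre_image hM)
    refine ⟨{y | ∃ a, a ≤ c ∧ x a = y}, ?_, ?_⟩
    · have h1 : (x '' Iic c).Countable := (hI c).image x
      refine (h1.preimage (f := (Subtype.val : ↥(range x) → ℕ → Bool))
        Subtype.val_injective).mono ?_
      rintro y ⟨a, ha, hay⟩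
      exact ⟨a, ha, hay⟩
    · intro f hf hfC hfM
      have h2 : ∀ i, ∃ a, x a = (f i : ℕ → Bool) := fun i => (f i).2
      choose a ha using h2
      have h3 : ∀ i, c < a i := by
        intro i
        by_contra hcon
        exact hfC i ⟨a i, not_lt.1 hcon, ha i⟩
      apply hc a ?_ h3
      · refine ⟨f, hfM, ?_⟩
        funext i
        exact (ha i).symm
      · intro i j hij
        apply hf
        apply Subtype.ext
        rw [← ha i, ← ha j, hij]
  refine ⟨⟨?_, ?_, ?_, ?_⟩, hSL⟩
  · infer_instance
  · infer_instance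
  · -- uncountable
    rw [← not_countable_iff]
    intro hcount
    have hr : (range x).Countable := hcount
    -- the diagonal is nowhere dense
    have hD : IsNowhereDense {f : Fin 2 → ℕ → Bool | f 0 = f 1} := by
      have hcl : IsClosed {f : Fin 2 → ℕ → Bool | f 0 = f 1} :=
        isClosed_eq (by fun_prop) (by fun_prop)
      rw [IsNowhereDense, hcl.closure_eq, ← not_nonempty_iff_eq_empty]
      rintro ⟨f, hf⟩
      obtain ⟨u, hu, hsub⟩ := isOpen_pi_iff'.1 isOpen_interior f hf
      obtain ⟨v, hv, hsub2⟩ := isOpen_pi_iff.1 (hu 0).1 (f 0) (hu 0).2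
      obtain ⟨k, hk⟩ := Infinite.exists_notMem_finset v
      let g : ℕ → Bool := Function.update (f 0) k (!(f 0 k))
      have hg : g ∈ u 0 := by
        apply hsub2.2
        intro i hi
        have : i ≠ k := fun h => hk (h ▸ hi)
        simp only [g, Function.update_of_ne this]
        exact (hsub2.1 i hi).2
      have h5 : Function.update f 0 g ∈ {f : Fin 2 → ℕ → Bool | f 0 = f 1} := by
        apply interior_subset
        apply hsub
        intro i _
        by_cases hi : i = 0
        · subst hi; simpa using hg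
        · rw [Function.update_of_ne hi]; exact (hu i).2
      have h6 : g = f 1 := by
        have h7 : Function.update f 0 g 0 = Function.update f 0 g 1 := h5
        simpa using h7
      have h8 : f 0 = f 1 := by
        have h9 : f ∈ {f : Fin 2 → ℕ → Bool | f 0 = f 1} := interior_subset hf
        exact h9
      have h10 : g k = f 0 k := by rw [h6, h8]
      simp [g] at h10
    obtain ⟨c, hc⟩ := hx 2 _ hD.isMeagre
    have hinj : InjOn x (Ioi c) := by
      intro a ha b hb hab
      by_contra hne
      apply hc ![a, b]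
      · intro i j hij
        fin_cases i <;> fin_cases j <;> simp_all
      · intro i
        fin_cases i
        · exact ha
        · exact hb
      · change x (![a, b] 0) = x (![a, b] 1)
        simpa using hab
    have h1 : (Ioi c).Countable := by
      refine MapsTo.countable_of_injOn (t := range x) (f := x) ?_ hinj hr
      intro a _
      exact ⟨a, rfl⟩
    have h2 : (univ : Set I).Countable := by
      rw [← Iic_union_Ioi (a := c)]
      exact (hI c).union h1
    exact (not_countable_iff.2 ‹Uncountable I›) (countable_univ_iff.1 h2)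
  · -- Lusin
    intro M hM
    obtain ⟨c, hc⟩ := hx 1 ((fun f : Fin 1 → ℕ → Bool => f 0) ⁻¹' (Subtype.val '' M)) (by
      apply (IsInducing.subtypeVal.isMeagre_image hM).preimage_of_isOpenMap
      · fun_prop
      · exact isOpenMap_eval 0)
    have h1 : (x '' Iic c).Countable := (hI c).image x
    refine (h1.preimage (f := (Subtype.val : ↥(range x) → ℕ → Bool))
      Subtype.val_injective).mono ?_
    rintro ⟨_, a, rfl⟩ hy
    refine ⟨a, ?_, rfl⟩
    by_contra hcon
    refine hc (fun _ => a) (fun i j _ => Subsingleton.elim i j) (fun _ => not_le.1 hcon) ?_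
    exact ⟨⟨x a, a, rfl⟩, hy, rfl⟩

theorem exists_stronglyLusin (h : CofMeagerLe) (Z : Set (ℕ → Bool)) (hZ : ¬ IsMeagre Z) :
    ∃ X : Set (ℕ → Bool), X ⊆ Z ∧ IsLusinSet ↥X ∧ StronglyLusin ↥X := by
  classical
  obtain ⟨B, hBc, hB1, hB2⟩ := h
  let I : Type := (Cardinal.aleph 1).ord.ToType
  have hIc : ∀ a : I, (Iio a).Countable := by
    intro a
    exact (Cardinal.countable_iff_lt_aleph_one _).2 (Cardinal.mk_Iio_toType_ord_lt a)
  have hIu : Uncountable I := by
    rw [← Cardinal.aleph0_lt_mk_iff]
    have : Cardinal.mk I = Cardinal.aleph 1 := Cardinal.mk_ord_toType _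
    rw [this]
    exact Cardinal.aleph0_lt_aleph_one
  have hne : Nonempty B := by
    obtain ⟨b, hb, _⟩ := hB2 ∅ IsMeagre.empty
    exact ⟨⟨b, hb⟩⟩
  have hemb : Nonempty (B ↪ I) := by
    rw [← Cardinal.le_def]
    have : Cardinal.mk I = Cardinal.aleph 1 := Cardinal.mk_ord_toType _
    rw [this]
    exact hBc
  obtain ⟨emb⟩ := hemb
  have hsurj := Function.invFun_surjective emb.injective
  let s : I → B := Function.invFun emb
  have he : ∀ n : ℕ, Nonempty (ℕ ≃ Fin (n + 1) × ℕ) := fun n => nonempty_equiv_of_countable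
  let e : (n : ℕ) → (ℕ ≃ Fin (n + 1) × ℕ) := fun n => (he n).some
  let BB : (n : ℕ) → I → Set (Fin (n + 1) → ℕ → Bool) := fun n a =>
    (powHomeo n (e n)) ⁻¹' (s a : Set (ℕ → Bool))
  obtain ⟨x, hxZ, hx⟩ := exists_seq (K := ℕ → Bool) (I := I) hIc BB
    (fun n a => (hB1 _ (s a).2).preimage_of_isOpenMap (powHomeo n (e n)).continuous
      (powHomeo n (e n)).isOpenMap)
    (by
      intro n M hM
      have h1 : IsMeagre ((powHomeo n (e n)).symm ⁻¹' M) :=
        hM.preimage_of_isOpenMap (powHomeo n (e n)).symm.continuous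
          (powHomeo n (e n)).symm.isOpenMap
      obtain ⟨b, hb, hMb⟩ := hB2 _ h1
      obtain ⟨a, ha⟩ := hsurj ⟨b, hb⟩
      refine ⟨a, ?_⟩
      intro f hf
      change (powHomeo n (e n)) f ∈ (s a : Set (ℕ → Bool))
      have h2 : s a = ⟨b, hb⟩ := ha
      rw [h2]
      apply hMb
      simpa using hf) Z hZ
  refine ⟨range x, range_subset_iff.2 hxZ, exists_lusin_of_seq ?_ x hx⟩
  intro a
  have : Iic a = insert a (Iio a) := by
    rw [Iio_insert]
  rw [this]
  exact (hIc a).insert a

/-- the continuum hypothesis implies `cof(meager) ≤ ℵ₁` -/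
theorem cofMeagerLe_of_CH (h : Cardinal.continuum.{0} = Cardinal.aleph 1) : CofMeagerLe := by
  classical
  have hB := TopologicalSpace.isBasis_countableBasis (ℕ → Bool)
  have hBc := TopologicalSpace.countable_countableBasis (ℕ → Bool)
  have hBne : (TopologicalSpace.countableBasis (ℕ → Bool)).Nonempty := by
    obtain ⟨b, hb, _⟩ := hB.exists_subset_of_mem_open (mem_univ (fun _ : ℕ => true)) isOpen_univ
    exact ⟨b, hb⟩
  obtain ⟨b, hb⟩ := hBc.exists_eq_range hBne
  let Φ : (ℕ → Set ℕ) → Set (ℕ → Bool) := fun S => ⋃ k, (⋃ i ∈ S k, b i)ᶜ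
  refine ⟨{M | IsMeagre M ∧ M ∈ range Φ}, ?_, fun M hM => hM.1, ?_⟩
  · have h1 : Cardinal.mk {M | IsMeagre M ∧ M ∈ range Φ} ≤ Cardinal.mk (range Φ) :=
      Cardinal.mk_le_mk_of_subset (fun M hM => hM.2)
    have h2 : Cardinal.mk (range Φ) ≤ Cardinal.mk (ℕ → Set ℕ) := Cardinal.mk_range_le
    have h3 : Cardinal.mk (ℕ → Set ℕ) = Cardinal.continuum := by simp
    rw [← h, ← h3]
    exact h1.trans h2
  · intro M hM
    obtain ⟨S, hS1, hS2, hS3⟩ := isMeagre_iff_countable_union_isNowhereDense.1 hM
    have hS1' : ∀ N ∈ insert (∅ : Set (ℕ → Bool)) S, IsNowhereDense N := by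
      intro N hN
      rcases hN with rfl | hN
      · simp [IsNowhereDense]
      · exact hS1 N hN
    obtain ⟨N, hN⟩ := (hS2.insert ∅).exists_eq_range (insert_nonempty _ _)
    have hNk : ∀ k, IsNowhereDense (N k) := fun k => hS1' _ (by rw [hN]; exact ⟨k, rfl⟩)
    have key : Φ (fun k => {i | b i ⊆ (closure (N k))ᶜ}) = ⋃ k, closure (N k) := by
      apply iUnion_congr
      intro k
      rw [compl_eq_comm]
      ext z
      constructor
      · intro hz
        obtain ⟨c, hc1, hc2, hc3⟩ := hB.exists_subset_of_mem_open hz isClosed_closure.isOpen_compl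
        rw [hb] at hc1
        obtain ⟨i, rfl⟩ := hc1
        exact mem_iUnion₂.2 ⟨i, hc3, hc2⟩
      · intro hz
        obtain ⟨i, hi, hzi⟩ := mem_iUnion₂.1 hz
        exact hi hzi
    refine ⟨⋃ k, closure (N k), ⟨?_, _, key⟩, ?_⟩
    · apply isMeagre_iUnion
      intro k
      exact (hNk k).closure.isMeagre
    · intro z hz
      obtain ⟨N', hN', hz'⟩ := hS3 hz
      have h1 : N' ∈ range N := by rw [← hN]; exact mem_insert_of_mem _ hN'
      obtain ⟨k, rfl⟩ := h1
      exact mem_iUnion.2 ⟨k, subset_closure hz'⟩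

end H608L
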