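import Mathlib

/-!
# Lusin sets and `K_Ω`: definitions (MP_74a7a6_gt)
-/

set_option autoImplicit false

namespace H608L

open Set Topology

universe u

/-- `𝒦`: families of open subsets of `X` whose closures cover `X`. -/
def KFam {X : Type u} [TopologicalSpace X] (U : Set (Set X)) : Prop :=
  (∀ u ∈ U, IsOpen u) ∧ (⋃ u ∈ U, closure u) = univ

/-- `𝒦_Ω`: the members `U` of `𝒦` such that no member of `U` is dense in `X`, and every finite subset
of `X` is contained in the closure of some member of `U`. -/
def KOmega {X : Type u} [TopologicalSpace X] (U : Set (Set X)) : Prop :=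
  KFam U ∧ (∀ u ∈ U, ¬ Dense u) ∧ ∀ F : Set X, F.Finite → ∃ u ∈ U, F ⊆ closure u

/-- `X` is `𝒦_Ω`-Lindelöf: every member of `𝒦_Ω` has a countable subfamily in `𝒦_Ω`. -/
def KOmegaLindelof (X : Type u) [TopologicalSpace X] : Prop :=
  ∀ U : Set (Set X), KOmega U → ∃ V : Set (Set X), V ⊆ U ∧ V.Countable ∧ KOmega V

/-- The selection principle `S₁(𝒦_Ω, 𝒦_Ω)`. -/
def SOne (X : Type u) [TopologicalSpace X] : Prop :=
  ∀ U : ℕ → Set (Set X), (∀ n, KOmega (U n)) →
    ∃ u : ℕ → Set X, (∀ n, u n ∈ U n) ∧ KOmega (range u)

/-- Lusin sets: uncountable separable metrizable spaces in which every meager set is countable. -/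
def IsLusinSet (X : Type u) [TopologicalSpace X] : Prop :=
  TopologicalSpace.SeparableSpace X ∧ TopologicalSpace.MetrizableSpace X ∧ Uncountable X ∧
    ∀ M : Set X, IsMeagre M → M.Countable

/-- Strong Lusin property: for every `n` and every meager set `M` in `X^n` there is a countable set `C`
such that no `n`-tuple of distinct points of `X \ C` is in `M`. -/
def StronglyLusin (X : Type u) [TopologicalSpace X] : Prop :=
  ∀ (n : ℕ) (M : Set (Fin n → X)), IsMeagre M → ∃ C : Set X, C.Countable ∧
    ∀ f : Fin n → X, Function.Injective f → (∀ i, f i ∉ C) → f ∉ M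

/-- the property for closed nowhere dense sets and an index type `ι` -/
def SL (X : Type u) [TopologicalSpace X] (ι : Type) : Prop :=
  ∀ N : Set (ι → X), IsClosed N → interior N = ∅ → ∃ C : Set X, C.Countable ∧
    ∀ f : ι → X, Function.Injective f → (∀ i, f i ∉ C) → f ∉ N

end H608L
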