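import Pool.Agent.H608L.Defs

/-!
# strong Lusin implies `S₁(𝒦_Ω, 𝒦_Ω)` for all subspaces
-/

set_option autoImplicit false

namespace H608L

open Set Topology

universe u

variable {X : Type u} [TopologicalSpace X]

lemma KOmega.fin {U : Set (Set X)} (h : KOmega U) {F : Set X} (hF : F.Finite) :
    ∃ u ∈ U, F ⊆ closure u := h.2.2 F hF

lemma koTo (U : Set (Set X)) (h1 : ∀ u ∈ U, IsOpen u) (h2 : ∀ u ∈ U, ¬ Dense u)
    (h3 : ∀ F : Set X, F.Finite → ∃ u ∈ U, F ⊆ closure u) : KOmega U := by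
  refine ⟨⟨h1, ?_⟩, h2, h3⟩
  apply eq_univ_of_forall
  intro x
  obtain ⟨u, hu, hx⟩ := h3 {x} (finite_singleton x)
  exact mem_iUnion₂.2 ⟨u, hu, hx rfl⟩

/-- one step: handle all countably many requirements -/
lemma stepReq [SecondCountableTopology X] (C : Set X) (hC : C.Countable)
    (V : ℕ → Set (Set X)) (hV : ∀ m, KOmega (V m)) :
    ∃ v : ℕ → Set X, (∀ m, v m ∈ V m) ∧ ∀ (F : Finset C)
      (L : List (TopologicalSpace.countableBasis X)),
      ∃ m, (∀ x ∈ F, (x : X) ∈ closure (v m)) ∧ ∀ b ∈ L, (v m ∩ (b : Set X)).Nonempty := by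
  classical
  have : Countable C := hC
  have : Countable (TopologicalSpace.countableBasis X) :=
    (TopologicalSpace.countable_countableBasis X).to_subtype
  obtain ⟨ρ, hρ⟩ := exists_surjective_nat (Finset C × List (TopologicalSpace.countableBasis X))
  have key : ∀ m : ℕ, ∃ w ∈ V m, (∀ x ∈ (ρ m).1, (x : X) ∈ closure w) ∧
      ∀ b ∈ (ρ m).2, (w ∩ (b : Set X)).Nonempty := by
    intro m
    have hne : ∀ b : TopologicalSpace.countableBasis X, ∃ p : X, p ∈ (b : Set X) := by
      intro b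
      exact TopologicalSpace.nonempty_of_mem_countableBasis b.2
    choose p hp using hne
    let F : Set X := (Subtype.val '' ((ρ m).1 : Set C)) ∪ {x | ∃ b ∈ (ρ m).2, x = p b}
    have hF : F.Finite := by
      apply Set.Finite.union
      · exact (Finset.finite_toSet _).image _
      · have : {x | ∃ b ∈ (ρ m).2, x = p b} = p '' {b | b ∈ (ρ m).2} := by
          ext x; constructor
          · rintro ⟨b, hb, rfl⟩; exact ⟨b, hb, rfl⟩
          · rintro ⟨b, hb, rfl⟩; exact ⟨b, hb, rfl⟩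
        rw [this]
        exact (List.finite_toSet _).image _
    obtain ⟨w, hw, hFw⟩ := (hV m).fin hF
    refine ⟨w, hw, ?_, ?_⟩
    · intro x hx
      exact hFw (Or.inl ⟨x, hx, rfl⟩)
    · intro b hb
      have h1 : p b ∈ closure w := hFw (Or.inr ⟨b, hb, rfl⟩)
      have h2 : IsOpen (b : Set X) :=
        (TopologicalSpace.isBasis_countableBasis X).isOpen b.2
      rw [inter_comm]
      exact mem_closure_iff.1 h1 _ h2 (hp b)
  choose v hv1 hv2 hv3 using key
  refine ⟨v, hv1, fun F L => ?_⟩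
  obtain ⟨m, hm⟩ := hρ (F, L)
  refine ⟨m, ?_, ?_⟩
  · intro x hx
    apply hv2 m
    rw [hm]; exact hx
  · intro b hb
    apply hv3 m
    rw [hm]; exact hb

lemma stepSL [SecondCountableTopology X] (hSL : ∀ n : ℕ, SL X (Fin n)) (C : Set X)
    (hC : C.Countable) (V : ℕ → Set (Set X)) (hV : ∀ m, KOmega (V m)) :
    ∃ v : ℕ → Set X, (∀ m, v m ∈ V m) ∧ ∃ C' : Set X, C ⊆ C' ∧ C'.Countable ∧
      ∀ F0 F1 : Set X, F0.Finite → F1.Finite → F0 ⊆ C → Disjoint F1 C' →
        ∃ m, F0 ∪ F1 ⊆ closure (v m) := by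
  classical
  obtain ⟨v, hv, hreq⟩ := stepReq C hC V hV
  have hopen : ∀ m, IsOpen (v m) := fun m => (hV m).1.1 _ (hv m)
  -- the open dense sets
  let W : Finset C → (n : ℕ) → Set (Fin n → X) := fun F n =>
    {f | ∃ m, (∀ x ∈ F, (x : X) ∈ closure (v m)) ∧ ∀ i, f i ∈ v m}
  have hWo : ∀ F n, IsOpen (W F n) := by
    intro F n
    have : W F n = ⋃ m ∈ {m | ∀ x ∈ F, (x : X) ∈ closure (v m)}, Set.pi univ (fun _ => v m) := by
      ext f
      simp only [W, mem_ofPred_eq, mem_iUnion, mem_pi, mem_univ, true_implies, exists_prop]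
    rw [this]
    apply isOpen_biUnion
    intro m _
    exact isOpen_set_pi finite_univ (fun _ _ => hopen m)
  have hWd : ∀ F n, Dense (W F n) := by
    intro F n
    rw [dense_iff_inter_open]
    intro O hO ⟨f, hf⟩
    obtain ⟨u, hu, hsub⟩ := isOpen_pi_iff'.1 hO f hf
    have hb : ∀ i, ∃ b : TopologicalSpace.countableBasis X, f i ∈ (b : Set X) ∧
        (b : Set X) ⊆ u i := by
      intro i
      obtain ⟨b, hb1, hb2, hb3⟩ := (TopologicalSpace.isBasis_countableBasis X).exists_subset_of_mem_open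
        (hu i).2 (hu i).1
      exact ⟨⟨b, hb1⟩, hb2, hb3⟩
    choose b hb1 hb2 using hb
    obtain ⟨m, hm1, hm2⟩ := hreq F (List.ofFn b)
    have hp : ∀ i, ∃ p, p ∈ v m ∧ p ∈ (b i : Set X) := by
      intro i
      obtain ⟨p, hp1, hp2⟩ := hm2 (b i) (by rw [List.mem_ofFn]; exact ⟨i, rfl⟩)
      exact ⟨p, hp1, hp2⟩
    choose p hp1 hp2 using hp
    refine ⟨p, hsub ?_, m, hm1, hp1⟩
    intro i _
    exact hb2 i (hp2 i)
  have hE : ∀ (F : Finset C) (n : ℕ), ∃ E : Set X, E.Countable ∧
      ∀ f : Fin n → X, Function.Injective f → (∀ i, f i ∉ E) → f ∈ W F n := by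
    intro F n
    obtain ⟨E, hE1, hE2⟩ := hSL n (W F n)ᶜ (hWo F n).isClosed_compl
      (by rw [interior_compl, (hWd F n).closure_eq, compl_univ])
    refine ⟨E, hE1, fun f hf hfi => ?_⟩
    have := hE2 f hf hfi
    rwa [mem_compl_iff, not_not] at this
  choose E hE1 hE2 using hE
  have hCc : Countable C := hC
  refine ⟨v, hv, C ∪ ⋃ (F : Finset C) (n : ℕ), E F n, subset_union_left, ?_, ?_⟩
  · apply hC.union
    apply countable_iUnion
    intro F
    apply countable_iUnion
    intro n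
    exact hE1 F n
  · intro F0 F1 hF0 hF1 hF0C hdis
    -- finset of C
    let G : Finset C := (hF0.preimage (Subtype.val_injective.injOn)).toFinset
    obtain ⟨n, ⟨e⟩⟩ := finite_iff_exists_equiv_fin.1 (hF1.to_subtype)
    let f : Fin n → X := fun i => (e.symm i : X)
    have hf : Function.Injective f := Subtype.val_injective.comp e.symm.injective
    have hfm : f ∈ W G n := by
      apply hE2 G n f hf
      intro i hi
      exact Set.disjoint_left.1 hdis (e.symm i).2
        (Or.inr (mem_iUnion₂.2 ⟨G, n, hi⟩))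
    obtain ⟨m, hm1, hm2⟩ := hfm
    refine ⟨m, union_subset ?_ ?_⟩
    · intro x hx
      exact hm1 ⟨x, hF0C hx⟩ (by simp [G, hx])
    · intro x hx
      have h1 := hm2 (e ⟨x, hx⟩)
      simp only [f, Equiv.symm_apply_apply] at h1
      exact subset_closure h1

lemma finSub {C : ℕ → Set X} (hmono : Monotone C) {F : Set X} (hF : F.Finite)
    (h1 : ∀ x ∈ F, ∃ j, x ∈ C j) : ∃ j, F ⊆ C j := by
  have : ∃ j, ∀ x ∈ hF.toFinset, x ∈ C j := by
    have h2 : ∀ x ∈ hF.toFinset, ∃ j, x ∈ C j := fun x hx => h1 x (by simpa using hx)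
    generalize hF.toFinset = G at h2
    classical
    induction G using Finset.induction_on with
    | empty => exact ⟨0, by simp⟩
    | insert a s _ ih =>
      obtain ⟨j1, hj1⟩ := ih (fun x hx => h2 x (Finset.mem_insert_of_mem hx))
      obtain ⟨j2, hj2⟩ := h2 a (Finset.mem_insert_self a s)
      refine ⟨max j1 j2, ?_⟩
      intro x hx
      rcases Finset.mem_insert.1 hx with rfl | hx
      · exact hmono (le_max_right j1 j2) hj2
      · exact hmono (le_max_left j1 j2) (hj1 x hx)
  obtain ⟨j, hj⟩ := this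
  exact ⟨j, fun x hx => hj x (by simpa using hx)⟩

theorem sOne_of_SL [SecondCountableTopology X] (hSL : ∀ n : ℕ, SL X (Fin n)) : SOne X := by
  classical
  intro U hU
  -- recursion
  have hstep : ∀ (j : ℕ) (C : {C : Set X // C.Countable}), ∃ (v : ℕ → Set X)
      (C' : {C : Set X // C.Countable}), (∀ m, v m ∈ U (Nat.pair j m)) ∧ C.1 ⊆ C'.1 ∧
      ∀ F0 F1 : Set X, F0.Finite → F1.Finite → F0 ⊆ C.1 → Disjoint F1 C'.1 →
        ∃ m, F0 ∪ F1 ⊆ closure (v m) := by
    intro j C
    obtain ⟨v, hv, C', h1, h2, h3⟩ := stepSL hSL C.1 C.2 (fun m => U (Nat.pair j m))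
      (fun m => hU _)
    exact ⟨v, ⟨C', h2⟩, hv, h1, h3⟩
  choose v nxt hv hsub hfin using hstep
  let C : ℕ → {C : Set X // C.Countable} := fun j => Nat.rec ⟨∅, countable_empty⟩
    (fun j C => nxt j C) j
  have hC : ∀ j, C (j + 1) = nxt j (C j) := fun j => rfl
  have hmono : Monotone (fun j => (C j).1) := by
    apply monotone_nat_of_le_succ
    intro j
    change (C j).1 ⊆ (C (j+1)).1
    rw [hC]
    exact hsub j (C j)
  let u : ℕ → Set X := fun k => v k.unpair.1 (C k.unpair.1) k.unpair.2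
  have hu : ∀ n, u n ∈ U n := by
    intro n
    have := hv n.unpair.1 (C n.unpair.1) n.unpair.2
    rwa [Nat.pair_unpair] at this
  refine ⟨u, hu, koTo _ ?_ ?_ ?_⟩
  · rintro _ ⟨n, rfl⟩
    exact (hU n).1.1 _ (hu n)
  · rintro _ ⟨n, rfl⟩
    exact (hU n).2.1 _ (hu n)
  · intro F hF
    -- the part in the union of the C j
    let F0 : Set X := F ∩ ⋃ j, (C j).1
    have hF0 : F0.Finite := hF.subset inter_subset_left
    obtain ⟨j, hj⟩ : ∃ j, F0 ⊆ (C j).1 := by
      have h1 : ∀ x ∈ F0, ∃ j, x ∈ (C j).1 := fun x hx => mem_iUnion.1 hx.2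
      exact finSub hmono hF0 h1
    obtain ⟨m, hm⟩ := hfin j (C j) F0 (F \ ⋃ j, (C j).1) hF0 (hF.subset sdiff_subset) hj (by
      rw [Set.disjoint_left]
      intro x hx hx2
      exact hx.2 (mem_iUnion.2 ⟨j + 1, by rw [hC]; exact hx2⟩))
    refine ⟨u (Nat.pair j m), ⟨_, rfl⟩, ?_⟩
    have h3 : u (Nat.pair j m) = v j (C j) m := by
      simp [u]
    rw [h3]
    refine Subset.trans ?_ hm
    intro x hx
    by_cases hxc : x ∈ ⋃ j, (C j).1
    · exact Or.inl ⟨hx, hxc⟩
    · exact Or.inr ⟨hx, hxc⟩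

theorem kol_of_sOne (h : SOne X) : KOmegaLindelof X := by
  intro U hU
  obtain ⟨u, hu, hr⟩ := h (fun _ => U) (fun _ => hU)
  exact ⟨range u, by rintro _ ⟨n, rfl⟩; exact hu n, countable_range u, hr⟩

/-- the property passes to subspaces -/
lemma SL.sub {ι : Type} (h : SL X ι) (Y : Set X) : SL Y ι := by
  intro N hN hNi
  have hind : IsInducing (fun f : ι → Y => fun i => (f i : X)) := by
    refine ⟨?_⟩
    refine le_antisymm ?_ ?_
    · rw [← continuous_iff_le_induced]
      fun_prop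
    · simp only [Pi.topologicalSpace]
      refine le_iInf fun i => ?_
      have : (instTopologicalSpaceSubtype : TopologicalSpace Y) =
          TopologicalSpace.induced Subtype.val inferInstance := rfl
      rw [this, induced_compose, induced_iInf]
      refine iInf_le_of_le i ?_
      rw [induced_compose]
      exact le_of_eq rfl
  have h1 : IsNowhereDense N := by rw [IsNowhereDense, hN.closure_eq]; exact hNi
  have h2 := hind.isNowhereDense_image h1
  obtain ⟨C, hC, hf⟩ := h (closure ((fun f : ι → Y => fun i => (f i : X)) '' N)) isClosed_closure h2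
  refine ⟨Subtype.val ⁻¹' C, hC.preimage Subtype.val_injective, ?_⟩
  intro f hfi hfC hfN
  exact hf (fun i => (f i : X)) (Subtype.val_injective.comp hfi) hfC
    (subset_closure ⟨f, hfN, rfl⟩)

lemma stronglyLusin_iff : StronglyLusin X ↔ ∀ n : ℕ, SL X (Fin n) := by
  constructor
  · intro h n N hN hNi
    refine h n N ?_
    rw [isMeagre_iff_countable_union_isNowhereDense]
    exact ⟨{N}, by
      rintro _ rfl
      rw [IsNowhereDense, hN.closure_eq]; exact hNi, countable_singleton N, by simp⟩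
  · intro h n M hM
    obtain ⟨S, hS1, hS2, hS3⟩ := isMeagre_iff_countable_union_isNowhereDense.1 hM
    have : ∀ t : S, ∃ C : Set X, C.Countable ∧
        ∀ f : Fin n → X, Function.Injective f → (∀ i, f i ∉ C) → f ∉ closure (t : Set (Fin n → X)) := by
      intro t
      exact h n (closure t) isClosed_closure (hS1 t t.2)
    choose C hC1 hC2 using this
    have : Countable S := hS2
    refine ⟨⋃ t, C t, countable_iUnion hC1, ?_⟩
    intro f hf hfC hfM
    obtain ⟨t, ht, hft⟩ := hS3 hfM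
    exact hC2 ⟨t, ht⟩ f hf (fun i hi => hfC i (mem_iUnion.2 ⟨_, hi⟩)) (subset_closure hft)

end H608L
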