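import Pool.Agent.H608L.StageB

/-!
# Lusin sets with cofinally many `𝒦_Ω`-Lindelöf co-countable subspaces are strongly Lusin
-/

set_option autoImplicit false

namespace H608L

open Set Topology Metric

universe u

/-- the separated step -/
lemma sepStep {X : Type u} [MetricSpace X] [SecondCountableTopology X] (hunc : Uncountable X)
    (hL : ∀ M : Set X, IsMeagre M → M.Countable)
    (hK : ∀ C : Set X, C.Countable → ∃ D : Set X, C ⊆ D ∧ D.Countable ∧ KOmegaLindelof ↥Dᶜ)
    {ι : Type} [Fintype ι] [DecidableEq ι] [Nonempty ι]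
    (hSL : ∀ i : ι, SL X {j // j ≠ i})
    (N : Set (ι → X)) (hN : IsClosed N) (hNi : interior N = ∅)
    (hinj : ∀ t ∈ N, Function.Injective t)
    (hinj' : ∀ (i : ι) (t : ι → X), t ∈ N → ∀ y : {j // j ≠ i} → X, (∀ j, y j = t j) →
      Function.Injective y) :
    ∃ C : Set X, C.Countable ∧ ∀ f : ι → X, (∀ i, f i ∉ C) → f ∉ N := by
  classical
  have hB := TopologicalSpace.isBasis_countableBasis X
  have hBc : Countable (TopologicalSpace.countableBasis X) :=
    (TopologicalSpace.countable_countableBasis X).to_subtype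
  -- the sets M i b
  let M : (i : ι) → TopologicalSpace.countableBasis X → Set ({j // j ≠ i} → X) := fun i b =>
    {y | ∀ z ∈ (b : Set X), (Homeomorph.funSplitAt X i).symm (z, y) ∈ N}
  have hMc : ∀ i b, IsClosed (M i b) := by
    intro i b
    have : M i b = ⋂ z ∈ (b : Set X), {y | (Homeomorph.funSplitAt X i).symm (z, y) ∈ N} := by
      ext y; simp [M]
    rw [this]
    apply isClosed_biInter
    intro z _
    exact hN.preimage ((Homeomorph.funSplitAt X i).symm.continuous.comp (by fun_prop))
  have hMi : ∀ i b, interior (M i b) = ∅ := by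
    intro i b
    rw [← not_nonempty_iff_eq_empty]
    intro hne
    have hbo : IsOpen (b : Set X) := hB.isOpen b.2
    have hbne : (b : Set X).Nonempty := TopologicalSpace.nonempty_of_mem_countableBasis b.2
    have hsub : (b : Set X) ×ˢ interior (M i b) ⊆ (Homeomorph.funSplitAt X i).symm ⁻¹' N := by
      rintro ⟨z, y⟩ ⟨hz, hy⟩
      exact interior_subset hy z hz
    have hsub2 : (b : Set X) ×ˢ interior (M i b) ⊆
        (Homeomorph.funSplitAt X i).symm ⁻¹' (interior N) := by
      rw [(Homeomorph.funSplitAt X i).symm.preimage_interior]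
      exact interior_maximal hsub (hbo.prod isOpen_interior)
    rw [hNi, preimage_empty] at hsub2
    obtain ⟨z, hz⟩ := hbne
    obtain ⟨y, hy⟩ := hne
    exact hsub2 (mk_mem_prod hz hy)
  have hE : ∀ (i : ι) (b : TopologicalSpace.countableBasis X), ∃ C : Set X, C.Countable ∧
      ∀ f : {j // j ≠ i} → X, Function.Injective f → (∀ j, f j ∉ C) → f ∉ M i b :=
    fun i b => hSL i (M i b) (hMc i b) (hMi i b)
  choose E hE1 hE2 using hE
  let Z : Set X := ⋃ b : TopologicalSpace.countableBasis X, {x | x ∈ (b : Set X) ∧
    (b : Set X).Countable}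
  have hZ : Z.Countable := by
    apply countable_iUnion
    intro b
    by_cases hb : (b : Set X).Countable
    · exact hb.mono (fun x hx => hx.1)
    · convert countable_empty
      ext x
      simp only [mem_ofPred_eq, mem_empty_iff_false, iff_false, not_and]
      exact fun _ => hb
  let C1 : Set X := Z ∪ ⋃ (i : ι) (b : TopologicalSpace.countableBasis X), E i b
  have hC1 : C1.Countable :=
    hZ.union (countable_iUnion fun i => countable_iUnion fun b => hE1 i b)
  -- Fact 1
  have fact1 : ∀ (i : ι) (y : ι → X), (∀ j, j ≠ i → y j ∉ C1) →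
      {z : X | Function.update y i z ∈ N}.Countable := by
    intro i y hy
    by_cases hne : {z : X | Function.update y i z ∈ N}.Nonempty
    · obtain ⟨z0, hz0⟩ := hne
      have hyinj : Function.Injective (fun j : {j // j ≠ i} => y j) := by
        refine hinj' i _ hz0 _ ?_
        intro j
        rw [Function.update_of_ne j.2]
      apply hL
      have hcl : IsClosed {z : X | Function.update y i z ∈ N} :=
        hN.preimage (continuous_const.update i continuous_id)
      have hint : interior {z : X | Function.update y i z ∈ N} = ∅ := by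
        rw [← not_nonempty_iff_eq_empty]
        rintro ⟨z, hz⟩
        obtain ⟨b, hb1, hb2, hb3⟩ := hB.exists_subset_of_mem_open hz isOpen_interior
        refine hE2 i ⟨b, hb1⟩ (fun j => y j) hyinj ?_ ?_
        · intro j hj
          exact hy j j.2 (Or.inr (mem_iUnion₂.2 ⟨i, ⟨b, hb1⟩, hj⟩))
        · intro w hw
          have h3' : w ∈ {z : X | Function.update y i z ∈ N} := interior_subset (hb3 hw)
          have h3 : Function.update y i w ∈ N := h3'
          have h4 : (Homeomorph.funSplitAt X i).symm (w, fun j => y j) = Function.update y i w := by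
            apply (Homeomorph.funSplitAt X i).injective
            rw [Homeomorph.apply_symm_apply]
            ext j
            · simp
            · simp [Function.update_of_ne j.2]
          rw [h4]
          exact h3
      have hnd : IsNowhereDense {z : X | Function.update y i z ∈ N} := by
        rw [IsNowhereDense, hcl.closure_eq]; exact hint
      exact hnd.isMeagre
    · rw [not_nonempty_iff_eq_empty.1 hne]
      exact countable_empty
  -- Fact 2
  have fact2 : ∀ x, x ∉ C1 → ∀ W : Set X, IsOpen W → x ∈ W → ¬ W.Countable := by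
    intro x hx W hW hxW hWc
    obtain ⟨b, hb1, hb2, hb3⟩ := hB.exists_subset_of_mem_open hxW hW
    exact hx (Or.inl (mem_iUnion.2 ⟨⟨b, hb1⟩, hb2, hWc.mono hb3⟩))
  -- the subspace
  obtain ⟨C2, h12, hC2, hKL⟩ := hK C1 hC1
  let N2 : Set (ι → ↥C2ᶜ) := {t | (fun i => (t i : X)) ∈ N}
  have hN2 : IsClosed N2 := hN.preimage (by fun_prop)
  have g0 : ∀ t ∈ N2, Function.Injective t := by
    intro t ht a b hab
    exact hinj _ ht (show (t a : X) = (t b : X) by rw [hab])
  have g1 : ∀ (i : ι) (y : ι → ↥C2ᶜ), {z : ↥C2ᶜ | Function.update y i z ∈ N2}.Countable := by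
    intro i y
    have h3 := fact1 i (fun j => (y j : X)) (fun j _ h => (y j).2 (h12 h))
    have h4 := h3.preimage (f := (Subtype.val : ↥C2ᶜ → X)) Subtype.val_injective
    refine h4.mono ?_
    intro z hz
    change Function.update (fun j => (y j : X)) i (z : X) ∈ N
    have h5 : (fun j => ((Function.update y i z) j : X)) ∈ N := hz
    convert h5 using 1
    ext j
    by_cases hj : j = i
    · subst hj; simp
    · rw [Function.update_of_ne hj, Function.update_of_ne hj]
  have g2 : ∀ W : Set ↥C2ᶜ, IsOpen W → W.Nonempty → ¬ W.Countable := by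
    rintro W hW ⟨x, hx⟩ hWc
    obtain ⟨W', hW', rfl⟩ := isOpen_induced_iff.1 hW
    apply fact2 x.1 (fun h => x.2 (h12 h)) W' hW' hx
    refine ((hWc.image Subtype.val).union hC2).mono ?_
    intro z hz
    by_cases hzC : z ∈ C2
    · exact Or.inr hzC
    · exact Or.inl ⟨⟨z, hzC⟩, hz, rfl⟩
  have hYunc : Uncountable ↥C2ᶜ := by
    rw [← not_countable_iff]
    intro hc
    have h3 : (univ : Set X).Countable := by
      have h4 : (C2ᶜ : Set X).Countable := hc
      have := hC2.union h4
      rwa [union_compl_self] at this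
    exact (not_countable_iff.2 hunc) (countable_univ_iff.1 h3)
  let 𝒰 : Set (Set ↥C2ᶜ) := {u | IsOpen u ∧ ¬ Dense u ∧ ∀ t : ι → ↥C2ᶜ, (∀ i, t i ∈ u) → t ∉ N2}
  have h𝒰 : KOmega 𝒰 := by
    apply koTo
    · intro u hu; exact hu.1
    · intro u hu; exact hu.2.1
    · intro F hF
      by_cases hne : F.Nonempty
      · have hq : ∃ q, q ∉ F := by
          by_contra hcon
          push Not at hcon
          have : F = univ := eq_univ_of_forall hcon
          rw [this] at hF
          exact (not_countable_iff.2 hYunc) (countable_univ_iff.1 hF.countable)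
        obtain ⟨q, hq⟩ := hq
        obtain ⟨r, hr, hrF⟩ : ∃ r : ℝ, 0 < r ∧ ∀ x ∈ F, 2 * r ≤ dist x q := by
          obtain ⟨x0, hx0, hmin⟩ := exists_min_image F (fun x => dist x q) hF hne
          refine ⟨dist x0 q / 2, ?_, ?_⟩
          · have : 0 < dist x0 q := dist_pos.2 (fun h => hq (h ▸ hx0))
            linarith
          · intro x hx
            have h7 : dist x0 q ≤ dist x q := hmin x hx
            linarith
        obtain ⟨U, hU1, hU2, hU3, hU4⟩ := fusion N2 hN2 g0 g1 g2 F hF hne r hr
        refine ⟨U, ⟨hU1, ?_, hU4⟩, hU3⟩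
        intro hd
        obtain ⟨z, hz1, hz2⟩ := hd.inter_open_nonempty (ball q r) isOpen_ball ⟨q, mem_ball_self hr⟩
        obtain ⟨x, hx, hzx⟩ := mem_iUnion₂.1 (hU2 hz2)
        have h3 := hrF x hx
        have h4 : dist z q < r := hz1
        have h5 : dist z x < r := hzx
        have h6 := dist_triangle_left x q z
        linarith
      · refine ⟨∅, ⟨isOpen_empty, ?_, ?_⟩, ?_⟩
        · intro hd
          have := hd.closure_eq
          rw [closure_empty] at this
          have hY : Nonempty ↥C2ᶜ := inferInstance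
          obtain ⟨y⟩ := hY
          have : y ∈ (∅ : Set ↥C2ᶜ) := by rw [this]; trivial
          exact this
        · intro t ht
          obtain ⟨i⟩ := (inferInstance : Nonempty ι)
          exact absurd (ht i) (notMem_empty _)
        · rw [not_nonempty_iff_eq_empty.1 hne]
          exact empty_subset _
  obtain ⟨V, hV1, hV2, hV3⟩ := hKL 𝒰 h𝒰
  refine ⟨C2 ∪ ⋃ v ∈ V, Subtype.val '' (frontier v), ?_, ?_⟩
  · apply hC2.union
    apply hV2.biUnion
    intro v hv
    apply hL
    apply IsNowhereDense.isMeagre
    apply IsInducing.subtypeVal.isNowhereDense_image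
    have hvo : IsOpen v := (hV1 hv).1
    rw [IsNowhereDense, isClosed_frontier.closure_eq, ← frontier_compl]
    exact interior_frontier hvo.isClosed_compl
  · intro f hfC hfN
    have hfC2 : ∀ i, f i ∉ C2 := fun i hi => hfC i (Or.inl hi)
    let g : ι → ↥C2ᶜ := fun i => ⟨f i, hfC2 i⟩
    obtain ⟨v, hv, hgv⟩ := hV3.fin (finite_range g)
    have hgv2 : ∀ i, g i ∈ v := by
      intro i
      by_contra hcon
      apply hfC i
      right
      refine mem_iUnion₂.2 ⟨v, hv, g i, ?_, rfl⟩
      have hvo : IsOpen v := (hV1 hv).1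
      rw [hvo.frontier_eq]
      exact ⟨hgv ⟨i, rfl⟩, hcon⟩
    exact (hV1 hv).2.2 g hgv2 hfN

/-- the induction step -/
lemma indStep {X : Type u} [MetricSpace X] [SecondCountableTopology X] (hunc : Uncountable X)
    (hL : ∀ M : Set X, IsMeagre M → M.Countable)
    (hK : ∀ C : Set X, C.Countable → ∃ D : Set X, C ⊆ D ∧ D.Countable ∧ KOmegaLindelof ↥Dᶜ)
    {ι : Type} [Fintype ι] [DecidableEq ι] [Nonempty ι]
    (hSL : ∀ i : ι, SL X {j // j ≠ i}) : SL X ι := by
  classical
  intro N hN hNi
  have hB := TopologicalSpace.isBasis_countableBasis X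
  have hBc : Countable (TopologicalSpace.countableBasis X) :=
    (TopologicalSpace.countable_countableBasis X).to_subtype
  have key : ∀ O : ι → TopologicalSpace.countableBasis X, ∃ C : Set X, C.Countable ∧
      ((∀ i j, i ≠ j → Disjoint (closure (O i : Set X)) (closure (O j : Set X))) →
      ∀ f : ι → X, (∀ i, f i ∉ C) → (∀ i, f i ∈ (O i : Set X)) → f ∉ N) := by
    intro O
    by_cases hO : ∀ i j, i ≠ j → Disjoint (closure (O i : Set X)) (closure (O j : Set X))
    · obtain ⟨C, hC1, hC2⟩ := sepStep hunc hL hK hSL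
        (N ∩ Set.pi univ (fun i => closure (O i : Set X)))
        (hN.inter (isClosed_set_pi (fun _ _ => isClosed_closure)))
        (by
          rw [← subset_empty_iff, ← hNi]
          exact interior_mono inter_subset_left)
        (by
          rintro t ⟨_, ht⟩ a b hab
          by_contra hne
          have h1 := ht a trivial
          have h2 := ht b trivial
          rw [← hab] at h2
          exact Set.disjoint_left.1 (hO a b hne) h1 h2)
        (by
          rintro i t ⟨_, ht⟩ y hy a b hab
          by_contra hne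
          have h1 := ht a trivial
          have h2 := ht b trivial
          rw [← hy, ← hab, hy] at h2
          exact Set.disjoint_left.1 (hO a b (fun h => hne (Subtype.ext h))) h1 h2)
      refine ⟨C, hC1, fun _ f hf hfO hfN => hC2 f hf ⟨hfN, fun i _ => subset_closure (hfO i)⟩⟩
    · exact ⟨∅, countable_empty, fun h => absurd h hO⟩
  choose C hC1 hC2 using key
  refine ⟨⋃ O, C O, countable_iUnion hC1, ?_⟩
  intro f hf hfC hfN
  obtain ⟨W, hW1, hW2⟩ := (finite_range f).t2_separation
  have hb : ∀ i, ∃ b : TopologicalSpace.countableBasis X, f i ∈ (b : Set X) ∧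
      closure (b : Set X) ⊆ W (f i) := by
    intro i
    obtain ⟨b, hb1, hb2, hb3⟩ := hB.exists_closure_subset ((hW1 (f i)).2.mem_nhds (hW1 (f i)).1)
    exact ⟨⟨b, hb1⟩, hb2, hb3⟩
  choose b hb1 hb2 using hb
  refine hC2 b ?_ f ?_ hb1 hfN
  · intro i j hij
    exact (hW2 ⟨i, rfl⟩ ⟨j, rfl⟩ (fun h => hij (hf h))).mono (hb2 i) (hb2 j)
  · intro i hi
    exact hfC i (mem_iUnion.2 ⟨b, hi⟩)

theorem SL_all {X : Type u} [MetricSpace X] [SecondCountableTopology X] (hunc : Uncountable X)
    (hL : ∀ M : Set X, IsMeagre M → M.Countable)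
    (hK : ∀ C : Set X, C.Countable → ∃ D : Set X, C ⊆ D ∧ D.Countable ∧ KOmegaLindelof ↥Dᶜ) (n : ℕ) :
    ∀ (ι : Type) [Fintype ι], Fintype.card ι = n → SL X ι := by
  classical
  induction n with
  | zero =>
    intro ι _ hι N hN hNi
    have : IsEmpty ι := Fintype.card_eq_zero_iff.1 hι
    refine ⟨∅, countable_empty, fun f _ _ hfN => ?_⟩
    have h1 : N = univ := by
      apply eq_univ_of_forall
      intro g
      rwa [Subsingleton.elim g f]
    rw [h1, interior_univ] at hNi
    have h2 : f ∈ (∅ : Set (ι → X)) := by rw [← hNi]; trivial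
    exact h2
  | succ n ih =>
    intro ι _ hι
    have : Nonempty ι := Fintype.card_pos_iff.1 (by omega)
    apply indStep hunc hL hK
    intro i
    apply ih
    rw [Fintype.card_subtype_compl, hι]
    simp

end H608L
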