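import Pool.Agent.H608L.PartA

/-!
# The stage lemma and the fusion construction
-/

set_option autoImplicit false

namespace H608L

open Set Topology Metric

universe u

/-- the stage lemma -/
lemma stage {Y : Type u} [MetricSpace Y] {ι : Type} [Fintype ι] [DecidableEq ι]
    (N : Set (ι → Y)) (hN : IsClosed N)
    (h0 : ∀ t ∈ N, Function.Injective t)
    (h1 : ∀ (i : ι) (y : ι → Y), {z : Y | Function.update y i z ∈ N}.Countable)
    (h2 : ∀ W : Set Y, IsOpen W → W.Nonempty → ¬ W.Countable)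
    (F : Set Y) (hF : F.Finite) (x : Y) (hx : x ∈ F) (ε : ℝ) (hε : 0 < ε) :
    ∃ (b : Y) (δ ε' : ℝ), 0 < δ ∧ 0 < ε' ∧ ε' ≤ ε / 2 ∧ ball b δ ⊆ ball x ε ∧
      ∀ t : ι → Y, (∃ i, t i ∈ ball b δ) →
        (∀ i, t i ∈ ball b δ ∨ ∃ x' ∈ F, t i ∈ ball x' ε') → t ∉ N := by
  classical
  -- the bad set
  let bad : Set Y := ⋃ i : ι, ⋃ y ∈ Set.pi univ (fun _ : ι => F), {z : Y | Function.update y i z ∈ N}
  have hbad : bad.Countable := by
    apply countable_iUnion
    intro i
    apply Set.Countable.biUnion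
    · exact (Set.Finite.pi (fun _ => hF)).countable
    · intro y _
      exact h1 i y
  have hex : ∃ b ∈ ball x ε, b ∉ bad := by
    by_contra hcon
    push Not at hcon
    exact h2 (ball x ε) isOpen_ball ⟨x, mem_ball_self hε⟩ (hbad.mono hcon)
  obtain ⟨b, hb1, hb2⟩ := hex
  let T : Set (ι → Y) := {t | (∀ i, t i ∈ insert b F) ∧ ∃ i, t i = b}
  have hTf : T.Finite := by
    apply (Set.Finite.pi (fun _ : ι => hF.insert b)).subset
    intro t ht i _
    exact ht.1 i
  have hTN : T ⊆ Nᶜ := by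
    intro t ht htN
    have hinj := h0 t htN
    obtain ⟨ht1, i, hi⟩ := ht
    apply hb2
    refine mem_iUnion.2 ⟨i, mem_iUnion₂.2 ⟨Function.update t i x, ?_, ?_⟩⟩
    · intro j _
      by_cases hj : j = i
      · subst hj; simpa using hx
      · rw [Function.update_of_ne hj]
        rcases ht1 j with h | h
        · exact absurd (hinj (h.trans hi.symm)) hj
        · exact h
    · change Function.update (Function.update t i x) i b ∈ N
      rw [Function.update_idem, ← hi, Function.update_eq_self]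
      exact htN
  obtain ⟨η, hη, hthick⟩ := hTf.isCompact.exists_thickening_subset_open hN.isOpen_compl hTN
  have hd : dist b x < ε := hb1
  refine ⟨b, min η (ε - dist b x), min η (ε / 2), lt_min hη (by linarith), lt_min hη (by linarith),
    min_le_right _ _, ?_, ?_⟩
  · intro z hz
    have hz' : dist z b < min η (ε - dist b x) := hz
    have : dist z b < ε - dist b x := lt_of_lt_of_le hz' (min_le_right _ _)
    have h3 := dist_triangle z b x
    change dist z x < ε
    linarith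
  · intro t ht1 ht2
    have hcl : ∀ i, ∃ w ∈ insert b F, dist (t i) w < η ∧ (t i ∈ ball b (min η (ε - dist b x)) → w = b) := by
      intro i
      by_cases hi : t i ∈ ball b (min η (ε - dist b x))
      · exact ⟨b, mem_insert _ _, lt_of_lt_of_le hi (min_le_left _ _), fun _ => rfl⟩
      · rcases ht2 i with h | ⟨x', hx', h⟩
        · exact absurd h hi
        · exact ⟨x', mem_insert_of_mem _ hx', lt_of_lt_of_le h (min_le_left _ _),
            fun h' => absurd h' hi⟩
    choose w hw1 hw2 hw3 using hcl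
    have hwT : w ∈ T := by
      refine ⟨hw1, ?_⟩
      obtain ⟨i, hi⟩ := ht1
      exact ⟨i, hw3 i hi⟩
    apply hthick
    rw [mem_thickening_iff]
    refine ⟨w, hwT, ?_⟩
    rw [dist_pi_lt_iff hη]
    exact hw2

/-- the fusion construction -/
lemma fusion {Y : Type u} [MetricSpace Y] {ι : Type} [Fintype ι] [DecidableEq ι] [Nonempty ι]
    (N : Set (ι → Y)) (hN : IsClosed N)
    (h0 : ∀ t ∈ N, Function.Injective t)
    (h1 : ∀ (i : ι) (y : ι → Y), {z : Y | Function.update y i z ∈ N}.Countable)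
    (h2 : ∀ W : Set Y, IsOpen W → W.Nonempty → ¬ W.Countable)
    (F : Set Y) (hF : F.Finite) (hne : F.Nonempty) (r : ℝ) (hr : 0 < r) :
    ∃ U : Set Y, IsOpen U ∧ U ⊆ ⋃ x ∈ F, ball x r ∧ F ⊆ closure U ∧
      ∀ t : ι → Y, (∀ i, t i ∈ U) → t ∉ N := by
  classical
  have hst : ∀ (ε : {ε : ℝ // 0 < ε}) (x : F), ∃ (b : Y) (δ : ℝ) (ε' : {ε : ℝ // 0 < ε}),
      0 < δ ∧ ε'.1 ≤ ε.1 / 2 ∧ ball b δ ⊆ ball x.1 ε.1 ∧
      ∀ t : ι → Y, (∃ i, t i ∈ ball b δ) →
        (∀ i, t i ∈ ball b δ ∨ ∃ x' ∈ F, t i ∈ ball x' ε'.1) → t ∉ N := by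
    intro ε x
    obtain ⟨b, δ, ε', hδ, hε', hle, hsub, ht⟩ := stage N hN h0 h1 h2 F hF x.1 x.2 ε.1 ε.2
    exact ⟨b, δ, ⟨ε', hε'⟩, hδ, hle, hsub, ht⟩
  choose b δ nxt hδ hle hsub ht using hst
  have : Nonempty F := hne.to_subtype
  have : Countable F := hF.countable
  obtain ⟨e, he⟩ := exists_surjective_nat F
  let E : ℕ → {ε : ℝ // 0 < ε} := fun s => Nat.rec ⟨r, hr⟩ (fun s ε => nxt ε (e s.unpair.1)) s
  have hE : ∀ s, E (s + 1) = nxt (E s) (e s.unpair.1) := fun s => rfl
  have hE2 : ∀ s, (E (s + 1)).1 ≤ (E s).1 / 2 := by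
    intro s; rw [hE]; exact hle _ _
  have hanti : Antitone (fun s => (E s).1) := by
    apply antitone_nat_of_succ_le
    intro s
    have := hE2 s
    have h3 := (E s).2
    linarith
  have hsmall : ∀ s, (E s).1 ≤ r / 2 ^ s := by
    intro s
    induction s with
    | zero => simp [E]
    | succ s ih =>
      have h3 := hE2 s
      calc (E (s + 1)).1 ≤ (E s).1 / 2 := h3
        _ ≤ (r / 2 ^ s) / 2 := by linarith
        _ = r / 2 ^ (s + 1) := by rw [pow_succ]; field_simp
  let bb : ℕ → Y := fun s => b (E s) (e s.unpair.1)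
  let dd : ℕ → ℝ := fun s => δ (E s) (e s.unpair.1)
  have hbb : ∀ s, ball (bb s) (dd s) ⊆ ball (e s.unpair.1 : Y) (E s).1 := fun s => hsub _ _
  have hdd : ∀ s, 0 < dd s := fun s => hδ _ _
  refine ⟨⋃ s, ball (bb s) (dd s), isOpen_iUnion (fun s => isOpen_ball), ?_, ?_, ?_⟩
  · intro z hz
    obtain ⟨s, hs⟩ := mem_iUnion.1 hz
    refine mem_iUnion₂.2 ⟨(e s.unpair.1 : Y), (e s.unpair.1).2, ?_⟩
    exact ball_subset_ball (hanti (Nat.zero_le s)) (hbb s hs)
  · intro x hx
    rw [Metric.mem_closure_iff]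
    intro ρ hρ
    obtain ⟨k, hk⟩ := he ⟨x, hx⟩
    obtain ⟨K, hK⟩ : ∃ K : ℕ, r / 2 ^ K < ρ := by
      obtain ⟨K, hK⟩ := pow_unbounded_of_one_lt (r / ρ) (one_lt_two : (1:ℝ) < 2)
      refine ⟨K, ?_⟩
      rw [div_lt_iff₀ (by positivity)]
      rw [div_lt_iff₀ hρ] at hK
      linarith
    have hs : (Nat.pair k K).unpair.1 = k := by rw [Nat.unpair_pair]
    refine ⟨bb (Nat.pair k K), mem_iUnion.2 ⟨_, mem_ball_self (hdd _)⟩, ?_⟩
    have h3 : bb (Nat.pair k K) ∈ ball (e (Nat.pair k K).unpair.1 : Y) (E (Nat.pair k K)).1 :=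
      hbb _ (mem_ball_self (hdd _))
    rw [hs, hk, mem_ball] at h3
    rw [dist_comm]
    have h4 : (E (Nat.pair k K)).1 ≤ (E K).1 := hanti (Nat.right_le_pair k K)
    have h5 := hsmall K
    linarith
  · intro t htU
    have hch : ∀ i, ∃ s, t i ∈ ball (bb s) (dd s) := fun i => mem_iUnion.1 (htU i)
    choose s hs using hch
    obtain ⟨i0, hi0⟩ := exists_min_image (univ : Set ι) s finite_univ univ_nonempty
    have hmin : ∀ i, s i0 ≤ s i := fun i => hi0.2 i (mem_univ i)
    refine ht (E (s i0)) (e (s i0).unpair.1) t ⟨i0, hs i0⟩ ?_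
    intro i
    rcases (hmin i).eq_or_lt with h | h
    · left
      have := hs i
      rw [← h] at this
      exact this
    · right
      refine ⟨(e (s i).unpair.1 : Y), (e (s i).unpair.1).2, ?_⟩
      have h3 := hbb (s i) (hs i)
      refine ball_subset_ball ?_ h3
      have h4 : (E (s i)).1 ≤ (E (s i0 + 1)).1 := hanti h
      rw [hE] at h4
      exact h4

end H608L
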